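import Pool.Agent.Lib.MP_430a41_an.Cantor

set_option autoImplicit false

open scoped ContDiff
open Pool.Agent.Lib.MP_430a41_an

namespace Pool.Agent.Results.MP_430a41_an.OrbitNotSubmanifold

/-- Negative answer to Q1: there is a smooth CR structure on `ℝ³` (of CR dimension one, spanned by
`∂₀ + i(∂₁ + c ∂₂)` with `c ≥ 0` smooth) for which the orbit `O(0)` is not an immersed
submanifold. It is not even a continuous image of a second countable locally connected space. -/
theorem result : ∃ S : CRStructure 3,
    (∃ c : E 3 → ℝ, ContDiff ℝ ∞ c ∧ (∀ p, 0 ≤ c p) ∧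
      ∀ p, S.H p = Submodule.span ℂ {![1, Complex.I, Complex.I * (c p : ℂ)]}) ∧
    (∀ (N : Type) [TopologicalSpace N] [SecondCountableTopology N] [LocallyConnectedSpace N]
      (f : N → E 3), Continuous f → Set.range f ≠ orbit S 0) ∧
    IsEmpty (ImmersedSubmanifold (orbit S 0)) :=
  exists_orbit_not_submanifold

end Pool.Agent.Results.MP_430a41_an.OrbitNotSubmanifold
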