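import Pool.Agent.Lib.MP_430a41_an.Flow

set_option autoImplicit false

open scoped ContDiff
open Pool.Agent.Lib.MP_430a41_an

namespace Pool.Agent.Results.MP_430a41_an.TangentNotSpanned

/-- Negative answer to Q2: there is a smooth CR structure on `ℝ³` (of CR dimension one, spanned by
`∂₀ + i(∂₁ + c ∂₂)` with `c ≥ 0` smooth) for which the orbit `O(0)` is the plane `{q 2 = 0}`, a
closed embedded submanifold, while at every point `q` of the orbit all infinitesimal CR
automorphisms near `q` are, at `q`, in a proper subspace of the tangent space of the orbit. -/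
theorem result : ∃ S : CRStructure 3,
    (∃ c : E 3 → ℝ, ContDiff ℝ ∞ c ∧ (∀ p, 0 ≤ c p) ∧
      ∀ p, S.H p = Submodule.span ℂ {![1, Complex.I, Complex.I * (c p : ℂ)]}) ∧
    orbit S 0 = {q | q 2 = 0} ∧
    ∃ σ : ImmersedSubmanifold (orbit S 0), Topology.IsClosedEmbedding σ.ι ∧
      ∀ x, σ.tangent x = {v | v 2 = 0} ∧ holSpan S (σ.ι x) ⊆ {v | v 0 = 0} ∧
        holSpan S (σ.ι x) ≠ σ.tangent x :=
  exists_tangent_not_spanned

end Pool.Agent.Results.MP_430a41_an.TangentNotSpanned
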